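import Pool.Agent.Lib.MP_a31e1e_gt.H25.CritG

/-!
# ALG: the approximating polynomial and the diffeomorphism (project TIGHT)
-/

open scoped ContDiff Manifold Topology RealInnerProductSpace
open Set Metric

namespace Pool.Agent.Tight.H25

lemma contDiff_div_aux {f g : E3 → ℝ} (hf : ContDiff ℝ ∞ f) (hg : ContDiff ℝ ∞ g)
    (h : ∀ x, g x = 0 → ∀ᶠ y in 𝓝 x, f y = 0) : ContDiff ℝ ∞ (fun x => f x / g x) := by
  rw [contDiff_iff_contDiffAt]
  intro x
  by_cases hx : g x = 0
  · have : (fun y => f y / g y) =ᶠ[𝓝 x] fun _ => (0:ℝ) := by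
      filter_upwards [h x hx] with y hy
      rw [hy, zero_div]
    exact contDiffAt_const.congr_of_eventuallyEq this
  · exact hf.contDiffAt.div hg.contDiffAt hx

lemma continuous_nn : Continuous nn := (pContDiff isPoly_nn).continuous

lemma tt_pos_of_nn {x : E3} (h : nn x ≤ 1 / 4) : 0 < tt x := by
  have h1 := abs_cc_le (x := x) (r := 1 / 2) (by norm_num) (by linarith)
  have h2 := (abs_le.mp h1).2
  unfold tt
  norm_num at h2
  linarith

theorem alg (hFex : FexStatement) (hCrit : CritGStatement) (hWeier : WeierStatement)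
    (hZ : ZmapStatement) (hPsi : PsiBoundsStatement) (hDiff : DiffeoStatement)
    (hSig : SigRegStatement) (hComp : CompStatement) : AlgStatement := by
  intro ρ l hp ε hε
  have hρ := hp.hρ
  have hρ' := hp.hρ'
  have hl := hp.hl
  obtain ⟨F, hF, hFc, hFS, hF0, hFd⟩ := hFex ρ l hp
  have hG : ContDiff ℝ ∞ (GG l) := pContDiff (isPoly_GG l)
  have hgG : ContDiff ℝ ∞ (gradSq (GG l)) := contDiff_gradSq hG
  have hgF : ContDiff ℝ ∞ (gradSq F) := contDiff_gradSq hF
  have hx2 : Continuous (fun x : E3 => |x 2 + 1|) :=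
    ((contDiff_coord 2).continuous.add continuous_const).abs
  set O : Set E3 := {x | nn x < ρ ^ 2 / 4 ∧ |x 2 + 1| < 1 / 8} with hOdef
  have hO : IsOpen O :=
    (isOpen_lt continuous_nn continuous_const).inter (isOpen_lt hx2 continuous_const)
  have hFO : ∀ x ∈ O, F x = GG l x := fun x hx => hFc x hx.1 hx.2
  -- the weights
  let A1 : E3 → ℝ := fun x => gradSq (GG l) x ^ 2 * flc l x ^ 3
  let A2 : E3 → ℝ := fun x => tt x ^ 6 * flr x ^ 3
  have hA1 : ContDiff ℝ ∞ A1 := (hgG.pow 2).mul ((pContDiff (isPoly_flc l)).pow 3)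
  have hA2 : ContDiff ℝ ∞ A2 := ((pContDiff isPoly_tt).pow 6).mul ((pContDiff isPoly_flr).pow 3)
  have hA1n : ∀ x, 0 ≤ A1 x := fun x => mul_nonneg (sq_nonneg _) (pow_nonneg (flc_nonneg l x) 3)
  have hA2n : ∀ x, 0 ≤ A2 x := fun x =>
    mul_nonneg (Even.pow_nonneg (by decide) _) (pow_nonneg (flr_nonneg x) 3)
  have hA1z : ∀ x, A1 x = 0 → x ∈ O := by
    intro x hx
    apply hCrit ρ l hp x
    rcases mul_eq_zero.mp hx with h | h
    · left; exact (pow_eq_zero_iff (by norm_num)).mp h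
    · right; exact (pow_eq_zero_iff (by norm_num)).mp h
  have hA2z : ∀ x, A2 x = 0 → 9 * ρ ^ 2 < nn x ∨ 1 / 4 < |x 2 + 1| := by
    intro x hx
    rcases mul_eq_zero.mp hx with h | h
    · left
      have h1 : tt x = 0 := (pow_eq_zero_iff (by norm_num)).mp h
      by_contra hcon
      push Not at hcon
      have : 0 < tt x := tt_pos_of_nn (by nlinarith)
      linarith
    · right
      have h1 : flr x = 0 := (pow_eq_zero_iff (by norm_num)).mp h
      unfold flr at h1
      have h2 : (x 2 - 1) ^ 2 = 0 := by nlinarith [nn_nonneg x, sq_nonneg (x 2 - 1)]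
      have h3 : x 2 - 1 = 0 := (pow_eq_zero_iff (by norm_num)).mp h2
      have h4 : x 2 + 1 = 2 := by linarith
      rw [h4]
      norm_num
  have hwpos : ∀ x, 0 < A1 x + A2 x := by
    intro x
    have h1 := hA1n x
    have h2 := hA2n x
    rcases h1.lt_or_eq with h | h
    · linarith
    rcases h2.lt_or_eq with h' | h'
    · linarith
    exfalso
    have h3 := hA1z x h.symm
    rcases hA2z x h'.symm with h4 | h4
    · have := h3.1; nlinarith
    · have := h3.2; linarith
  -- the smooth function to be approximated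
  let q1 : E3 → ℝ := fun x => (F x - GG l x) / A1 x
  let q2 : E3 → ℝ := fun x => (F x - FS x) / A2 x
  have hq1 : ContDiff ℝ ∞ q1 := by
    refine contDiff_div_aux (hF.sub hG) hA1 fun x hx => ?_
    filter_upwards [hO.mem_nhds (hA1z x hx)] with y hy
    rw [hFO y hy, sub_self]
  have hq2 : ContDiff ℝ ∞ q2 := by
    refine contDiff_div_aux (hF.sub (pContDiff isPoly_FS)) hA2 fun x hx => ?_
    rcases hA2z x hx with h | h
    · filter_upwards [(isOpen_lt continuous_const continuous_nn).mem_nhds h] with y hy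
      rw [hFS y (Or.inl (le_of_lt hy)), sub_self]
    · filter_upwards [(isOpen_lt continuous_const hx2).mem_nhds h] with y hy
      rw [hFS y (Or.inr (le_of_lt hy)), sub_self]
  let h1 : E3 → ℝ := fun x => q1 x + q2 x
  have hh1 : ContDiff ℝ ∞ h1 := hq1.add hq2
  have hid : ∀ x, A2 x * GG l x + A1 x * FS x + A1 x * A2 x * h1 x = (A1 x + A2 x) * F x := by
    intro x
    have e1 : A1 x * q1 x = F x - GG l x := by
      by_cases hx : A1 x = 0
      · rw [hx, zero_mul, hFO x (hA1z x hx), sub_self]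
      · simp only [q1]; field_simp
    have e2 : A2 x * q2 x = F x - FS x := by
      by_cases hx : A2 x = 0
      · rw [hx, zero_mul]
        rcases hA2z x hx with h | h
        · rw [hFS x (Or.inl (le_of_lt h)), sub_self]
        · rw [hFS x (Or.inr (le_of_lt h)), sub_self]
      · simp only [q2]; field_simp
    have : A1 x * A2 x * h1 x = A2 x * (A1 x * q1 x) + A1 x * (A2 x * q2 x) := by
      simp only [h1]; ring
    rw [this, e1, e2]
    ring
  -- the quotient of the gradients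
  classical
  let κ : E3 → ℝ := fun x => if x ∈ O then 1 else gradSq (GG l) x ^ 2 / gradSq F x ^ 2
  have hgO : ∀ x ∈ O, gradSq F x = gradSq (GG l) x := fun x hx =>
    gradSq_congr (Filter.eventuallyEq_of_mem (hO.mem_nhds hx) hFO)
  have hκ : ∀ x, (x ∈ O ∨ fderiv ℝ F x ≠ 0) → κ x * gradSq F x ^ 2 = gradSq (GG l) x ^ 2 := by
    intro x hx
    by_cases hxO : x ∈ O
    · simp only [κ, if_pos hxO, one_mul]; rw [hgO x hxO]
    · have h2 := hx.resolve_left hxO
      have h3 : gradSq F x ≠ 0 := fun h => h2 (gradSq_eq_zero_iff.mp h)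
      simp only [κ, if_neg hxO]
      field_simp
  have hκs : ∀ x, (x ∈ O ∨ fderiv ℝ F x ≠ 0) → ContDiffAt ℝ ∞ κ x := by
    intro x hx
    by_cases hxO : x ∈ O
    · have : κ =ᶠ[𝓝 x] fun _ => (1:ℝ) := by
        filter_upwards [hO.mem_nhds hxO] with y hy
        simp only [κ, if_pos hy]
      exact contDiffAt_const.congr_of_eventuallyEq this
    · have h2 := hx.resolve_left hxO
      have h3 : gradSq F x ≠ 0 := fun h => h2 (gradSq_eq_zero_iff.mp h)
      have h4 : κ =ᶠ[𝓝 x] fun y => gradSq (GG l) y ^ 2 / gradSq F y ^ 2 := by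
        have h5 : ∀ᶠ y in 𝓝 x, gradSq F y ≠ 0 :=
          hgF.continuous.continuousAt.eventually_ne h3
        filter_upwards [h5] with y hy
        by_cases hyO : y ∈ O
        · simp only [κ, if_pos hyO]
          rw [hgO y hyO] at hy ⊢
          field_simp
        · simp only [κ, if_neg hyO]
      exact ((hgG.contDiffAt.pow 2).div (hgF.contDiffAt.pow 2) (pow_ne_zero 2 h3)).congr_of_eventuallyEq h4
  -- the compact set and the cutoff
  set V : Set E3 := {x | nn x < 4} ∩ ball 0 10 ∩ (O ∪ {x | fderiv ℝ F x ≠ 0}) with hVdef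
  have hVo : IsOpen V := by
    refine ((isOpen_lt continuous_nn continuous_const).inter isOpen_ball).inter (hO.union ?_)
    exact isOpen_ne_fun (hF.continuous_fderiv (by simp)) continuous_const
  have hImgC : IsCompact (Img ρ l) := (hComp ρ l hp).1.image continuous_fst
  have hImgN : ∀ x ∈ Img ρ l, nn x < 4 := by
    rintro x ⟨p, hpS, rfl⟩
    rcases hpS with ⟨b, hb, rfl⟩ | ⟨h, -⟩
    · have : nn (floorP ρ l b).1 ≤ 4 * ρ ^ 2 := hb
      nlinarith
    · exact h.2.1
  have hImgV : Img ρ l ⊆ V := by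
    intro x hx
    have hn := hImgN x hx
    refine ⟨⟨hn, ?_⟩, hFd x hx⟩
    rw [mem_ball_zero_iff]
    by_cases h2 : 1 / 4 ≤ |x 2 + 1|
    · have h3 : FS x = 0 := by
        rw [← hFS x (Or.inr h2)]
        exact (hF0 x hn).mpr hx
      have := hSig.2.2.2.2.2.1 x h3 hn.le
      linarith
    · push Not at h2
      have h3 : ‖x‖ ^ 2 < 10 ^ 2 := by
        rw [EuclideanSpace.norm_sq_eq, Fin.sum_univ_three]
        simp only [Real.norm_eq_abs, sq_abs]
        unfold nn at hn
        have := abs_lt.mp h2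
        nlinarith
      exact lt_of_pow_lt_pow_left₀ 2 (by norm_num) h3
  obtain ⟨b, hb, hbc, hbV, W, hW, hImgW, hbW⟩ := exists_cutoff hImgC hVo hImgV
  set Kc := tsupport b with hKc
  have hKcc : IsCompact Kc := hbc
  have hKcF : ∀ x ∈ Kc, x ∈ O ∨ fderiv ℝ F x ≠ 0 := fun x hx => (hbV hx).2
  let b' : E3 → ℝ := fun x => b x * (κ x / (A1 x + A2 x))
  have hb' : ContDiff ℝ ∞ b' := by
    rw [contDiff_iff_contDiffAt]
    intro x
    by_cases hx : x ∈ Kc
    · exact hb.contDiffAt.mul ((hκs x (hKcF x hx)).div (hA1.add hA2).contDiffAt (hwpos x).ne')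
    · have : b' =ᶠ[𝓝 x] fun _ => (0:ℝ) := by
        have h0 := notMem_tsupport_iff_eventuallyEq.mp hx
        filter_upwards [h0] with y hy
        simp only [b', hy, Pi.zero_apply, zero_mul]
      exact contDiffAt_const.congr_of_eventuallyEq this
  have hb'c : HasCompactSupport b' := hbc.mul_right
  have hb't : tsupport b' ⊆ Kc := closure_mono (fun x hx => by
    rw [Function.mem_support] at hx ⊢
    intro h; exact hx (by simp only [b', h, zero_mul]))
  have hϖ : ContDiff ℝ ∞ (varpi l) := pContDiff (isPoly_varpi l)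
  obtain ⟨B, hB0, hB⟩ : ∃ B : ℝ, 0 < B ∧ ∀ x ∈ Kc, varpi l x ≤ B := by
    obtain ⟨B, hB⟩ := hKcc.bddAbove_image hϖ.continuous.continuousOn
    exact ⟨max B 1, by positivity, fun x hx => (hB ⟨x, hx, rfl⟩).trans (le_max_left _ _)⟩
  obtain ⟨r, hr0, hr⟩ := hImgC.exists_thickening_subset_open hW hImgW
  set ε' := min ε (min (1 / (2 * B)) (r / (2 * B))) with hε'
  have hε'0 : 0 < ε' := by
    rw [hε']
    refine lt_min hε (lt_min ?_ ?_) <;> positivity
  have hε'1 : ε' ≤ ε := min_le_left _ _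
  have hε'2 : ε' * B ≤ 1 / 2 := by
    have : ε' ≤ 1 / (2 * B) := (min_le_right _ _).trans (min_le_left _ _)
    calc ε' * B ≤ 1 / (2 * B) * B := mul_le_mul_of_nonneg_right this hB0.le
      _ = 1 / 2 := by field_simp
  have hε'3 : ε' * B ≤ r / 2 := by
    have : ε' ≤ r / (2 * B) := (min_le_right _ _).trans (min_le_right _ _)
    calc ε' * B ≤ r / (2 * B) * B := mul_le_mul_of_nonneg_right this hB0.le
      _ = r / 2 := by field_simp
  obtain ⟨U, Y, hU, hKU, hY, hY0, hYF⟩ :=
    hZ F (GG l) O Kc hF (isPoly_GG l) hO hFO hKcc hKcF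
  obtain ⟨δ, hδ, hψE⟩ := hPsi U Y (varpi l) Kc hU hY hKcc hKU hY0 hϖ (varpi_nonneg l) ε' hε'0
  obtain ⟨q, hq, hqb⟩ := hWeier h1 b' hh1 hb' hb'c δ hδ
  have hqs : ContDiff ℝ ∞ q := pContDiff hq
  obtain ⟨ψ, hψ, hψid, hψY, hψ0, hψ1, hψ2, hψ3⟩ := hψE (fun x => b' x * (q x - h1 x))
    (hb'.mul (hqs.sub hh1)) (by
      refine (closure_mono fun x hx => ?_).trans hb't
      rw [Function.mem_support] at hx ⊢
      intro h; exact hx (by simp only [h, zero_mul])) hqb
  have hψ1' : ∀ x, ‖fderiv ℝ ψ x - ContinuousLinearMap.id ℝ E3‖ ≤ 1 / 2 := by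
    intro x
    by_cases hx : x ∈ Kc
    · calc _ ≤ ε' * varpi l x := hψ1 x
        _ ≤ ε' * B := mul_le_mul_of_nonneg_left (hB x hx) hε'0.le
        _ ≤ 1 / 2 := hε'2
    · have he : ψ =ᶠ[𝓝 x] id := by
        filter_upwards [(isClosed_tsupport b).isOpen_compl.mem_nhds hx] with y hy
        exact hψid y hy
      rw [he.fderiv_eq, fderiv_id, sub_self, norm_zero]
      norm_num
  obtain ⟨θ, hθ, hl', hr'⟩ := hDiff ψ hψ hψ1'
  -- the polynomial
  have hPoly : IsPoly (fun x => A2 x * GG l x + A1 x * FS x + A1 x * A2 x * q x) := by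
    have p1 : IsPoly A1 := pMul (pPow (isPoly_gradSq (isPoly_GG l)) 2) (pPow (isPoly_flc l) 3)
    have p2 : IsPoly A2 := pMul (pPow isPoly_tt 6) (pPow isPoly_flr 3)
    exact pAdd (pAdd (pMul p2 (isPoly_GG l)) (pMul p1 isPoly_FS)) (pMul (pMul p1 p2) hq)
  obtain ⟨P, hP⟩ := hPoly
  have hkey : ∀ x ∈ W, MvPolynomial.eval (fun i => x i) P = (A1 x + A2 x) * F (ψ x) := by
    intro x hx
    have hb1 := hbW x hx
    have hxK : x ∈ Kc := subset_tsupport b (by rw [Function.mem_support, hb1]; exact one_ne_zero)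
    obtain ⟨hu, hψx⟩ := hψY x hxK
    have h2 := hYF _ hu
    simp only at h2
    rw [← hψx] at h2
    rw [h2, ← hP x]
    have h3 := hid x
    have h4 := hκ x (hKcF x hxK)
    have hw := (hwpos x).ne'
    have h5 : (A1 x + A2 x) * (gradSq F x ^ 2 * (varpi l x ^ 3 * (b' x * (q x - h1 x))))
        = A1 x * A2 x * (q x - h1 x) := by
      have e1 : b' x = κ x / (A1 x + A2 x) := by simp only [b', hb1, one_mul]
      have e2 : (A1 x + A2 x) * (κ x / (A1 x + A2 x)) = κ x := by field_simp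
      have e3 : A1 x * A2 x = gradSq (GG l) x ^ 2 * varpi l x ^ 3 := by
        simp only [A1, A2, varpi]; ring
      calc _ = ((A1 x + A2 x) * b' x) * gradSq F x ^ 2 * varpi l x ^ 3 * (q x - h1 x) := by ring
        _ = (κ x * gradSq F x ^ 2) * varpi l x ^ 3 * (q x - h1 x) := by rw [e1, e2]
        _ = _ := by rw [h4, e3]
    rw [mul_add, h5, ← h3]
    ring
  refine ⟨P, ψ, θ, W ∩ {x | nn (ψ x) < 4}, ?_, ?_, ?_, ?_⟩
  · refine ⟨hψ, hθ, hl', hr', fun x => (hψ0 x).trans ?_, fun x => (hψ1 x).trans ?_,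
      fun x => (hψ2 x).trans ?_, ?_, hψ3⟩
    · exact mul_le_mul_of_nonneg_right hε'1 (varpi_nonneg l x)
    · exact mul_le_mul_of_nonneg_right hε'1 (varpi_nonneg l x)
    · exact mul_le_mul_of_nonneg_right hε'1 (varpi_nonneg l x)
    · intro x hx
      apply hψid
      intro hxK
      have h2 := (hbV hxK).1.2
      rw [mem_ball_zero_iff] at h2
      linarith
  · exact hW.inter (isOpen_lt (continuous_nn.comp hψ.continuous) continuous_const)
  · intro y hy
    refine ⟨?_, ?_⟩
    · by_cases hK : θ y ∈ Kc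
      · apply hr
        rw [mem_thickening_iff]
        refine ⟨y, hy, ?_⟩
        rw [dist_comm, dist_eq_norm]
        have h2 := hψ0 (θ y)
        rw [hr' y] at h2
        calc ‖y - θ y‖ ≤ ε' * varpi l (θ y) := h2
          _ ≤ ε' * B := mul_le_mul_of_nonneg_left (hB _ hK) hε'0.le
          _ ≤ r / 2 := hε'3
          _ < r := by linarith
      · have h2 := hψid _ hK
        rw [hr' y] at h2
        rw [← h2]
        exact hImgW hy
    · show nn (ψ (θ y)) < 4
      rw [hr' y]
      exact hImgN y hy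
  · rintro x ⟨hxW, hx4⟩
    show MvPolynomial.eval (fun i => x i) P = 0 ↔ _
    rw [hkey x hxW, mul_eq_zero, or_iff_right (hwpos x).ne']
    exact hF0 (ψ x) hx4

end Pool.Agent.Tight.H25
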