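import Pool.Agent.Lib.MP_a31e1e_gt.H25.Poly

/-!
# CRITG: critical points of the core polynomial lie in the core cylinder (project TIGHT)
-/

open scoped ContDiff Manifold Topology RealInnerProductSpace
open Set Metric

namespace Pool.Agent.Tight.H25

lemma gg_partial2 (l : ℝ) (x : E3) : fderiv ℝ (GG l) x (EuclideanSpace.single 2 1)
    = 3 * WW x ^ 2 + 25 * l ^ 2 * (nn x ^ 2 - 3 * l ^ 2 * nn x - 2 * l * dd x) := by
  set e : E3 := EuclideanSpace.single 2 1 with he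
  have h1 : HasDerivAt (fun t : ℝ => x + t • e) e 0 := by
    have := ((hasDerivAt_id (0:ℝ)).smul_const e).const_add x
    simpa using this
  have hd : HasFDerivAt (GG l) (fderiv ℝ (GG l) x) (x + (0:ℝ) • e) := by
    have := ((pContDiff (isPoly_GG l)).differentiable (by simp) x).hasFDerivAt
    simpa using this
  have h2 := hd.comp_hasDerivAt (0:ℝ) h1
  have h3 : (GG l ∘ fun t : ℝ => x + t • e) = fun t : ℝ => (WW x + t) ^ 3
      + 25 * l ^ 2 * (nn x ^ 2 - 3 * l ^ 2 * nn x - 2 * l * dd x) * (WW x + t)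
      + 250 * l ^ 4 * (nn x - l ^ 2) * cc x := by
    funext t
    simp [GG, WW, nn, cc, dd, he]
    ring
  rw [h3] at h2
  have h4 : HasDerivAt (fun t : ℝ => (WW x + t) ^ 3
      + 25 * l ^ 2 * (nn x ^ 2 - 3 * l ^ 2 * nn x - 2 * l * dd x) * (WW x + t)
      + 250 * l ^ 4 * (nn x - l ^ 2) * cc x)
      (3 * WW x ^ 2 + 25 * l ^ 2 * (nn x ^ 2 - 3 * l ^ 2 * nn x - 2 * l * dd x)) 0 := by
    have a1 : HasDerivAt (fun t : ℝ => WW x + t) 1 0 := (hasDerivAt_id (0:ℝ)).const_add _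
    have a2 := ((a1.pow 3).add (a1.const_mul
      (25 * l ^ 2 * (nn x ^ 2 - 3 * l ^ 2 * nn x - 2 * l * dd x)))).add_const
      (250 * l ^ 4 * (nn x - l ^ 2) * cc x)
    refine (a2.congr_deriv ?_)
    simp
  exact h2.unique h4

lemma abs_cc_le {x : E3} {r : ℝ} (hr : 0 ≤ r) (h : nn x ≤ r ^ 2) : |cc x| ≤ r ^ 3 := by
  have h1 := cc_sq_le x
  have h2 : nn x ^ 3 ≤ (r ^ 2) ^ 3 := pow_le_pow_left₀ (nn_nonneg x) h 3
  have h3 : cc x ^ 2 ≤ (r ^ 3) ^ 2 := by calc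
    _ ≤ _ := h1
    _ ≤ _ := h2
    _ = _ := by ring
  exact abs_le_of_sq_le_sq h3 (by positivity)

lemma abs_dd_le {x : E3} {r : ℝ} (hr : 0 ≤ r) (h : nn x ≤ r ^ 2) : |dd x| ≤ r ^ 3 := by
  have h1 := dd_sq_le x
  have h2 : nn x ^ 3 ≤ (r ^ 2) ^ 3 := pow_le_pow_left₀ (nn_nonneg x) h 3
  have h3 : dd x ^ 2 ≤ (r ^ 3) ^ 2 := by calc
    _ ≤ _ := h1
    _ ≤ _ := h2
    _ = _ := by ring
  exact abs_le_of_sq_le_sq h3 (by positivity)

theorem critG : CritGStatement := by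
  intro ρ l hp x hx
  have hρ := hp.hρ
  have hρ' := hp.hρ'
  have hl := hp.hl
  have hl' := hp.hl'
  have hl1 : l ≤ 1 / 10000 := by linarith
  set r := √(nn x) with hr
  have hr0 : 0 ≤ r := Real.sqrt_nonneg _
  have hr2 : r ^ 2 = nn x := Real.sq_sqrt (nn_nonneg x)
  have hc := abs_cc_le hr0 hr2.ge
  have hd := abs_dd_le hr0 hr2.ge
  have key : r ≤ 5 * l ∧ |WW x| ≤ l := by
    rcases hx with h | h
    · rw [gradSq_eq_zero_iff] at h
      have h1 := gg_partial2 l x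
      rw [h] at h1
      simp only [zero_apply] at h1
      rw [← hr2] at h1
      have hd' := abs_le.mp hd
      have h2 : 2 * l * dd x ≤ 2 * l * r ^ 3 := mul_le_mul_of_nonneg_left hd'.2 (by positivity)
      have hr3 : r ≤ 3 * l := by
        by_contra hcon
        push Not at hcon
        have h3 : 0 < r := by linarith
        have h4 : 0 < (r ^ 2) ^ 2 - 3 * l ^ 2 * r ^ 2 - 2 * l * r ^ 3 := by
          have : (r ^ 2) ^ 2 - 3 * l ^ 2 * r ^ 2 - 2 * l * r ^ 3 = r ^ 2 * ((r - 3 * l) * (r + l)) := by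
            ring
          rw [this]
          have : 0 < r - 3 * l := by linarith
          positivity
        have h5 : 0 < 25 * l ^ 2 * ((r ^ 2) ^ 2 - 3 * l ^ 2 * r ^ 2 - 2 * l * dd x) := by
          have : 0 < (r ^ 2) ^ 2 - 3 * l ^ 2 * r ^ 2 - 2 * l * dd x := by linarith
          positivity
        nlinarith [sq_nonneg (WW x)]
      refine ⟨by linarith, ?_⟩
      have h6 : 3 * WW x ^ 2 ≤ 25 * l ^ 2 * (3 * l ^ 2 * r ^ 2 + 2 * l * r ^ 3) := by
        have : 3 * WW x ^ 2 = 25 * l ^ 2 * (3 * l ^ 2 * r ^ 2 + 2 * l * dd x - (r ^ 2) ^ 2) := by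
          linarith
        rw [this]
        apply mul_le_mul_of_nonneg_left _ (by positivity)
        nlinarith [sq_nonneg (r ^ 2)]
      have h7 : r ^ 2 ≤ (3 * l) ^ 2 := pow_le_pow_left₀ hr0 hr3 2
      have h8 : r ^ 3 ≤ (3 * l) ^ 3 := pow_le_pow_left₀ hr0 hr3 3
      have h9 : 3 * WW x ^ 2 ≤ 25 * l ^ 2 * (3 * l ^ 2 * (3 * l) ^ 2 + 2 * l * (3 * l) ^ 3) := by
        refine h6.trans ?_
        gcongr
      have h10 : WW x ^ 2 ≤ l ^ 2 := by
        have : 25 * l ^ 2 * (3 * l ^ 2 * (3 * l) ^ 2 + 2 * l * (3 * l) ^ 3)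
            = 3 * (675 * l ^ 4) * l ^ 2 := by ring
        have h11 : 675 * l ^ 4 ≤ 1 := by
          have : l ^ 4 ≤ (1 / 10000) ^ 4 := pow_le_pow_left₀ hl.le hl1 4
          nlinarith
        nlinarith [sq_nonneg l, mul_le_mul_of_nonneg_right h11 (sq_nonneg l)]
      exact abs_le_of_sq_le_sq h10 hl.le
    · unfold flc at h
      have h1 : (nn x - 25 * l ^ 2) ^ 2 = 0 := by
        nlinarith [sq_nonneg (nn x - 25 * l ^ 2), sq_nonneg (WW x)]
      have h2 : WW x ^ 2 = 0 := by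
        nlinarith [sq_nonneg (nn x - 25 * l ^ 2), sq_nonneg (WW x)]
      rw [pow_eq_zero_iff (by norm_num)] at h1 h2
      refine ⟨?_, by rw [h2]; simpa using hl.le⟩
      have h3 : r ^ 2 ≤ (5 * l) ^ 2 := by rw [hr2]; nlinarith
      exact (abs_le.mp (abs_le_of_sq_le_sq h3 (by positivity))).2
  obtain ⟨k1, k2⟩ := key
  have hr4 : r ^ 2 ≤ (5 * l) ^ 2 := pow_le_pow_left₀ hr0 k1 2
  have hr5 : r ^ 3 ≤ (5 * l) ^ 3 := pow_le_pow_left₀ hr0 k1 3
  constructor
  · rw [← hr2]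
    nlinarith
  · have e : x 2 + 1 = WW x - cc x / 2 := by unfold WW; ring
    rw [e]
    have h1 : |WW x - cc x / 2| ≤ |WW x| + |cc x| / 2 := by
      have := abs_sub (WW x) (cc x / 2)
      rwa [abs_div, abs_two] at this
    have h2 : (5 * l) ^ 3 ≤ (1 / 100) ^ 3 := pow_le_pow_left₀ (by positivity) (by linarith) 3
    have h3 : |cc x| ≤ 1 / 100 := by
      have : (1 / 100 : ℝ) ^ 3 ≤ 1 / 100 := by norm_num
      linarith
    linarith

end Pool.Agent.Tight.H25
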