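import Pool.Agent.Lib.MP_a31e1e_gt.Interfaces

/-!
# Polynomial functions on E3 and a cutoff lemma (project TIGHT)
-/

open scoped ContDiff Manifold Topology RealInnerProductSpace
open Set Metric

namespace Pool.Agent.Tight.H25

lemma exists_cutoff {K V : Set E3} (hK : IsCompact K) (hV : IsOpen V) (hKV : K ⊆ V) :
    ∃ b : E3 → ℝ, ContDiff ℝ ∞ b ∧ HasCompactSupport b ∧ tsupport b ⊆ V ∧
      ∃ W, IsOpen W ∧ K ⊆ W ∧ ∀ x ∈ W, b x = 1 := by
  obtain ⟨L, hL, hKL, hLV⟩ := exists_compact_between hK hV hKV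
  obtain ⟨f, h1, h0, -⟩ := exists_contMDiffMap_one_nhds_of_subset_interior 𝓘(ℝ, E3)
    (n := (⊤ : ℕ∞)) hK.isClosed hKL
  have hts : tsupport (f : E3 → ℝ) ⊆ L :=
    closure_minimal (fun x hx => by by_contra h; exact hx (h0 x h)) hL.isClosed
  refine ⟨f, f.contMDiff.contDiff, HasCompactSupport.intro hL (fun x hx => h0 x hx),
    hts.trans hLV, ?_⟩
  rw [Filter.eventually_iff_exists_mem] at h1
  obtain ⟨s, hs, hs1⟩ := h1
  rw [mem_nhdsSet_iff_exists] at hs
  obtain ⟨W, hW, hKW, hWs⟩ := hs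
  exact ⟨W, hW, hKW, fun x hx => hs1 x (hWs hx)⟩

lemma contDiff_coord (i : Fin 3) : ContDiff ℝ ∞ (fun x : E3 => x i) :=
  (EuclideanSpace.proj i : E3 →L[ℝ] ℝ).contDiff

lemma contDiff_eval (p : MvPolynomial (Fin 3) ℝ) :
    ContDiff ℝ ∞ (fun x : E3 => MvPolynomial.eval (fun i => x i) p) := by
  induction p using MvPolynomial.induction_on with
  | C a => simpa using contDiff_const
  | add p q hp hq => simpa using hp.add hq
  | mul_X p i hp => simpa using hp.mul (contDiff_coord i)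

lemma isPoly_const (a : ℝ) : IsPoly (fun _ => a) := ⟨MvPolynomial.C a, by simp⟩
lemma isPoly_coord (i : Fin 3) : IsPoly (fun x => x i) := ⟨MvPolynomial.X i, by simp⟩

lemma pAdd {f g : E3 → ℝ} (hf : IsPoly f) (hg : IsPoly g) : IsPoly (fun x => f x + g x) := by
  obtain ⟨p, hp⟩ := hf
  obtain ⟨q, hq⟩ := hg
  exact ⟨p + q, fun x => by simp [hp, hq]⟩

lemma pMul {f g : E3 → ℝ} (hf : IsPoly f) (hg : IsPoly g) : IsPoly (fun x => f x * g x) := by
  obtain ⟨p, hp⟩ := hf
  obtain ⟨q, hq⟩ := hg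
  exact ⟨p * q, fun x => by simp [hp, hq]⟩

lemma pNeg {f : E3 → ℝ} (hf : IsPoly f) : IsPoly (fun x => - f x) := by
  obtain ⟨p, hp⟩ := hf
  exact ⟨-p, fun x => by simp [hp]⟩

lemma pSub {f g : E3 → ℝ} (hf : IsPoly f) (hg : IsPoly g) : IsPoly (fun x => f x - g x) := by
  obtain ⟨p, hp⟩ := hf
  obtain ⟨q, hq⟩ := hg
  exact ⟨p - q, fun x => by simp [hp, hq]⟩

lemma pPow {f : E3 → ℝ} (hf : IsPoly f) (n : ℕ) : IsPoly (fun x => f x ^ n) := by
  obtain ⟨p, hp⟩ := hf
  exact ⟨p ^ n, fun x => by simp [hp]⟩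

lemma pContDiff {f : E3 → ℝ} (hf : IsPoly f) : ContDiff ℝ ∞ f := by
  obtain ⟨p, hp⟩ := hf
  have : f = fun x : E3 => MvPolynomial.eval (fun i => x i) p := funext hp
  rw [this]
  exact contDiff_eval p

lemma pPartial {f : E3 → ℝ} (hf : IsPoly f) (i : Fin 3) :
    IsPoly (fun x => fderiv ℝ f x (EuclideanSpace.single i 1)) := by
  obtain ⟨p, hp⟩ := hf
  have hfe : f = fun x : E3 => MvPolynomial.eval (fun i => x i) p := funext hp
  subst hfe
  clear hp
  induction p using MvPolynomial.induction_on with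
  | C a => exact ⟨0, fun x => by simp⟩
  | add p q hp hq =>
    have h := pAdd hp hq
    obtain ⟨r, hr⟩ := h
    refine ⟨r, fun x => ?_⟩
    rw [← hr x]
    have e : (fun x : E3 => MvPolynomial.eval (fun i => x i) (p + q))
        = (fun x => MvPolynomial.eval (fun i => x i) p + MvPolynomial.eval (fun i => x i) q) := by
      funext x; simp
    have e2 := fderiv_fun_add ((contDiff_eval p).differentiable (by simp) x)
      ((contDiff_eval q).differentiable (by simp) x)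
    show fderiv ℝ (fun x : E3 => MvPolynomial.eval (fun i => x i) (p + q)) x
      (EuclideanSpace.single i 1) = _
    rw [e, e2]
    simp
  | mul_X p j hp =>
    have h := pAdd (pMul hp (isPoly_coord j))
      (pMul (isPoly_const ((EuclideanSpace.single i (1 : ℝ) : E3) j))
        (⟨p, fun x => rfl⟩ : IsPoly (fun x : E3 => MvPolynomial.eval (fun i => x i) p)))
    obtain ⟨r, hr⟩ := h
    refine ⟨r, fun x => ?_⟩
    rw [← hr x]
    have e : (fun x : E3 => MvPolynomial.eval (fun i => x i) (p * MvPolynomial.X j))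
        = fun x => MvPolynomial.eval (fun i => x i) p * x j := by
      funext x; simp
    have hd : HasFDerivAt (fun x : E3 => x j) (EuclideanSpace.proj j : E3 →L[ℝ] ℝ) x :=
      (EuclideanSpace.proj j : E3 →L[ℝ] ℝ).hasFDerivAt
    have e2 := fderiv_fun_mul ((contDiff_eval p).differentiable (by simp) x)
      hd.differentiableAt
    show fderiv ℝ (fun x : E3 => MvPolynomial.eval (fun i => x i) (p * MvPolynomial.X j)) x
      (EuclideanSpace.single i 1) = _
    rw [e, e2, hd.fderiv]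
    simp
    ring

lemma isPoly_gradSq {f : E3 → ℝ} (hf : IsPoly f) : IsPoly (gradSq f) := by
  have h0 := pPow (pPartial hf 0) 2
  have h1 := pPow (pPartial hf 1) 2
  have h2 := pPow (pPartial hf 2) 2
  obtain ⟨r, hr⟩ := pAdd (pAdd h0 h1) h2
  exact ⟨r, fun x => by rw [← hr x]; simp [gradSq, Fin.sum_univ_three]⟩

lemma gradSq_eq_zero_iff {F : E3 → ℝ} {x : E3} : gradSq F x = 0 ↔ fderiv ℝ F x = 0 := by
  constructor
  · intro h
    unfold gradSq at h
    rw [Finset.sum_eq_zero_iff_of_nonneg (fun i _ => sq_nonneg _)] at h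
    ext i
    have e : i = ∑ k, (i k) • (EuclideanSpace.single k (1:ℝ) : E3) := by
      ext m
      simp [Fin.sum_univ_three]
      fin_cases m <;> simp
    rw [e, map_sum, map_sum]
    refine Finset.sum_congr rfl fun k _ => ?_
    have h3 := h k (Finset.mem_univ k)
    rw [pow_eq_zero_iff (by norm_num)] at h3
    rw [map_smul, map_smul, h3]
    simp
  · intro h; simp [gradSq, h]

lemma gradSq_nonneg (F : E3 → ℝ) (x : E3) : 0 ≤ gradSq F x :=
  Finset.sum_nonneg fun _ _ => sq_nonneg _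

lemma contDiff_gradSq {F : E3 → ℝ} (hF : ContDiff ℝ ∞ F) : ContDiff ℝ ∞ (gradSq F) := by
  unfold gradSq
  refine ContDiff.sum fun i _ => ?_
  exact ((hF.fderiv_right (m := ∞) (by simp)).clm_apply contDiff_const).pow 2

lemma gradSq_congr {F G : E3 → ℝ} {x : E3} (h : F =ᶠ[𝓝 x] G) : gradSq F x = gradSq G x := by
  unfold gradSq
  rw [h.fderiv_eq]

lemma isPoly_nn : IsPoly nn := pAdd (pPow (isPoly_coord 0) 2) (pPow (isPoly_coord 1) 2)
lemma isPoly_cc : IsPoly cc :=
  pSub (pPow (isPoly_coord 1) 3)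
    (pMul (pMul (isPoly_const 3) (pPow (isPoly_coord 0) 2)) (isPoly_coord 1))
lemma isPoly_dd : IsPoly dd :=
  pSub (pPow (isPoly_coord 0) 3)
    (pMul (pMul (isPoly_const 3) (isPoly_coord 0)) (pPow (isPoly_coord 1) 2))
lemma isPoly_tt : IsPoly tt := pSub (pSub (isPoly_const 4) (pMul (isPoly_const 3) isPoly_nn)) isPoly_cc
lemma isPoly_mm : IsPoly mm :=
  pSub (pAdd (pPow (isPoly_coord 2) 2) (pMul (isPoly_const 3) isPoly_nn)) (isPoly_const 9)
lemma isPoly_FS : IsPoly FS := pSub (pPow isPoly_mm 2) (pMul (isPoly_const 16) isPoly_tt)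
lemma isPoly_WW : IsPoly WW := by
  obtain ⟨r, hr⟩ := pAdd (pAdd (isPoly_coord 2) (isPoly_const 1))
    (pMul isPoly_cc (isPoly_const (1 / 2)))
  exact ⟨r, fun x => by rw [← hr x]; unfold WW; ring⟩
lemma isPoly_GG (l : ℝ) : IsPoly (GG l) := by
  have h1 := pPow isPoly_WW 3
  have h2 := pMul (pMul (isPoly_const (25 * l ^ 2)) (pSub (pSub (pPow isPoly_nn 2)
    (pMul (isPoly_const (3 * l ^ 2)) isPoly_nn)) (pMul (isPoly_const (2 * l)) isPoly_dd)))
    isPoly_WW
  have h3 := pMul (pMul (isPoly_const (250 * l ^ 4)) (pSub isPoly_nn (isPoly_const (l ^ 2))))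
    isPoly_cc
  obtain ⟨r, hr⟩ := pAdd (pAdd h1 h2) h3
  exact ⟨r, fun x => by rw [← hr x]; rfl⟩
lemma isPoly_flc (l : ℝ) : IsPoly (flc l) :=
  pAdd (pPow (pSub isPoly_nn (isPoly_const (25 * l ^ 2))) 2) (pPow isPoly_WW 2)
lemma isPoly_flr : IsPoly flr := pAdd isPoly_nn (pPow (pSub (isPoly_coord 2) (isPoly_const 1)) 2)
lemma isPoly_varpi (l : ℝ) : IsPoly (varpi l) :=
  pMul (pMul (pPow isPoly_tt 2) (isPoly_flc l)) isPoly_flr

lemma flc_nonneg (l : ℝ) (x : E3) : 0 ≤ flc l x := by unfold flc; positivity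
lemma nn_nonneg (x : E3) : 0 ≤ nn x := by unfold nn; positivity
lemma flr_nonneg (x : E3) : 0 ≤ flr x := by
  unfold flr; have := nn_nonneg x; positivity
lemma varpi_nonneg (l : ℝ) (x : E3) : 0 ≤ varpi l x := by
  unfold varpi
  have := flc_nonneg l x
  have := flr_nonneg x
  positivity

/-- `C^2 ≤ N^3` -/
lemma cc_sq_le (x : E3) : cc x ^ 2 ≤ nn x ^ 3 := by
  have : nn x ^ 3 - cc x ^ 2 = dd x ^ 2 := by unfold nn cc dd; ring
  nlinarith [sq_nonneg (dd x)]
lemma dd_sq_le (x : E3) : dd x ^ 2 ≤ nn x ^ 3 := by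
  have : nn x ^ 3 - cc x ^ 2 = dd x ^ 2 := by unfold nn cc dd; ring
  nlinarith [sq_nonneg (cc x)]

end Pool.Agent.Tight.H25
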